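import Pool.Agent.L0h16.PZ.Stm

/-! # Board PZ, module ISO: the isotropic integral vectors generate the closed cone -/

set_option autoImplicit false

open Pool.Agent.N165.KM (IntL)
open Pool.Agent.L0h18.HZ (CCone)
open Pool.Agent.L0h18.LZ (bil Lorentz pcone ncone Pts IsoZ FinIdx mods)
open Pool.Agent.L0h97.LZ

namespace Pool.Agent.L0h95.PZ

open Pool.Agent.L0h16.PZ

variable {d : ℕ} {B : Matrix (Fin d) (Fin d) ℤ} {h : Fin d → ℝ}

theorem finIdx_full (hL : Lorentz B h) : FinIdx B h (IsoZ B h) := by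
  obtain ⟨b1, b2, b3, b4, b5, b6, b7, b8, b9, b10, b11, b12, b13, b14, b15, b16⟩ := mods.bas d B h hL
  refine ⟨le_rfl, b16, b15, ⟨{1}, Set.finite_singleton 1, ?_, fun T hT => ⟨T, hT, 1, rfl,
    (mul_one T).symm⟩⟩⟩
  intro T hT
  rw [Set.mem_singleton_iff.1 hT]
  exact ⟨fun x hx => hx, fun x hx => hx, fun x y => rfl, hL.pos⟩

theorem ccone_ncone (hL : Lorentz B h) : CCone (ncone B h) := by
  obtain ⟨b1, b2, b3, b4, b5, b6, b7, b8, b9, b10, b11, b12, b13, b14, b15, b16⟩ := mods.bas d B h hL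
  refine ⟨by rw [← b6]; exact isClosed_closure, b8, ?_⟩
  rintro t ht x ⟨h1, h2⟩
  refine ⟨?_, ?_⟩
  · rw [bil_smul_left, bil_smul_right]
    exact mul_nonneg ht (mul_nonneg ht h1)
  · rw [bil_smul_left]
    exact mul_nonneg ht h2

/-- the closed convex cone generated by the isotropic integral vectors -/
def Dmin (B : Matrix (Fin d) (Fin d) ℤ) (h : Fin d → ℝ) : Set (Fin d → ℝ) :=
  {x | ∀ D : Set (Fin d → ℝ), CCone D → (∀ e ∈ Pts B h, bil B e e = 0 → e ∈ D) → x ∈ D}

theorem exists_single (hL : Lorentz B h) {e : Fin d → ℝ} (he0 : e ≠ 0) :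
    ∃ x ∈ IntL d, bil B x e ≠ 0 := by
  classical
  obtain ⟨b1, b2, b3, b4, b5, b6, b7, b8, hnd, -⟩ := mods.bas d B h hL
  by_contra hcon
  push Not at hcon
  apply he0
  apply hnd
  intro y
  rw [bil_comm hL.symm, ← Finset.univ_sum_single y]
  have : ∀ S : Finset (Fin d), bil B (∑ i ∈ S, Pi.single i (y i)) e = 0 := by
    intro S
    induction S using Finset.induction_on with
    | empty => rw [Finset.sum_empty, bil_zero_left]
    | insert a S ha ih =>
      rw [Finset.sum_insert ha, bil_add_left, ih, add_zero]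
      have h1 : (Pi.single a (y a) : Fin d → ℝ) = y a • Pi.single a 1 := by
        rw [← Pi.single_smul, smul_eq_mul, mul_one]
      rw [h1, bil_smul_left, hcon _ (single_int a), mul_zero]
  exact this Finset.univ

/-- a second isotropic vector -/
theorem exists_second (hL : Lorentz B h) {e : Fin d → ℝ} (he : e ∈ Pts B h) (hee : bil B e e = 0) :
    ∃ f ∈ Pts B h, bil B f f = 0 ∧ 0 < bil B e f := by
  obtain ⟨b1, b2, b3, b4, b5, b6, b7, b8, b9, b10, b11, b12, b13, b14, b15, b16⟩ := mods.bas d B h hL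
  obtain ⟨x, hxI, hx⟩ := exists_single hL he.2.1
  have hs := hL.symm
  obtain ⟨a, ha⟩ := bil_int B hxI he.1
  obtain ⟨b, hb⟩ := bil_int B hxI hxI
  have hfI : (2 * bil B x e) • x - bil B x x • e ∈ IntL d := by
    rw [ha, hb]
    have h1 : ((2 : ℝ) * a) = ((2 * a : ℤ) : ℝ) := by push_cast; rfl
    rw [h1]
    exact (IntL d).sub_mem (int_smul hxI _) (int_smul he.1 _)
  obtain ⟨f, hf⟩ : ∃ f, f = (2 * bil B x e) • x - bil B x x • e := ⟨_, rfl⟩
  rw [← hf] at hfI
  have hff : bil B f f = 0 := by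
    rw [hf]
    simp only [bil_sub_left, bil_sub_right, bil_smul_left, bil_smul_right, hee, bil_comm hs e x]
    ring
  have hef : bil B e f = 2 * bil B x e ^ 2 := by
    rw [hf]
    simp only [bil_sub_right, bil_smul_right, hee, bil_comm hs e x]
    ring
  have hpos : 0 < bil B e f := by
    rw [hef]
    positivity
  refine ⟨f, ⟨hfI, ?_, le_of_eq hff.symm, ?_⟩, hff, hpos⟩
  · rintro rfl
    rw [bil_zero_right] at hpos
    exact lt_irrefl _ hpos
  · by_contra hcon
    rw [not_le] at hcon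
    have h1 : -f ∈ ncone B h := by
      refine ⟨?_, ?_⟩
      · rw [bil_neg_left, bil_neg_right, neg_neg, hff]
      · rw [bil_neg_left]
        linarith
    have h2 := b2 e he.2.2 (-f) h1
    rw [bil_neg_right] at h2
    linarith

theorem t_ISO : S_ISO := by
  intro d B h hL hd hex D hD hDe
  obtain ⟨b1, b2, b3, b4, b5, b6, b7, b8, b9, b10, b11, b12, b13, b14, b15, b16⟩ := mods.bas d B h hL
  have hcl : IsClosed (Dmin B h) := by
    have h1 : Dmin B h = ⋂ (D : Set (Fin d → ℝ)) (_ : CCone D)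
        (_ : ∀ e ∈ Pts B h, bil B e e = 0 → e ∈ D), D := by
      ext x
      simp only [Set.mem_iInter]
      rfl
    rw [h1]
    exact isClosed_iInter fun D => isClosed_iInter fun hD => isClosed_iInter fun _ => hD.closed
  have hsub : Dmin B h ⊆ ncone B h := fun x hx => hx _ (ccone_ncone hL) fun e he _ => he.2.2
  have hadd : ∀ x ∈ Dmin B h, ∀ z ∈ Dmin B h, x + z ∈ Dmin B h := fun x hx z hz D hD hDe =>
    hD.add _ (hx D hD hDe) _ (hz D hD hDe)
  have hsm : ∀ t : ℝ, 0 ≤ t → ∀ x ∈ Dmin B h, t • x ∈ Dmin B h := fun t ht x hx D hD hDe =>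
    hD.smul t ht _ (hx D hD hDe)
  have hpt : ∀ x ∈ Dmin B h, -x ∈ Dmin B h → x = 0 := by
    intro x hx hx'
    obtain ⟨h1, h2⟩ := hsub hx
    obtain ⟨-, h3⟩ := hsub hx'
    rw [bil_neg_left] at h3
    by_contra hne
    have h4 := hL.neg x (by linarith) hne
    linarith
  have hinv : ∀ T ∈ IsoZ B h, ∀ x ∈ Dmin B h, T x ∈ Dmin B h := by
    intro T hT x hx D hD hDe
    have hc : Continuous T := T.toLinearMap.continuous_of_finiteDimensional
    refine hx (T ⁻¹' D) ⟨hD.closed.preimage hc, fun y hy z hz => ?_, fun t ht y hy => ?_⟩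
      fun e he hee => ?_
    · show T (y + z) ∈ D
      rw [map_add]
      exact hD.add _ hy _ hz
    · show T (t • y) ∈ D
      rw [map_smul]
      exact hD.smul t ht _ hy
    · refine hDe (T e) ⟨hT.1 e he.1, fun h0 => he.2.1 ?_, ((b14 T hT).2 e).2 he.2.2⟩ ?_
      · exact T.injective (by rw [h0, map_zero])
      · rw [hT.2.2.1, hee]
  have hne : (Dmin B h ∩ pcone B h).Nonempty := by
    obtain ⟨e, he, hee⟩ := hex
    obtain ⟨f, hf, hff, hef⟩ := exists_second hL he hee
    have h1 : 0 < bil B (e + f) (e + f) := by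
      rw [bil_add_left, bil_add_right, bil_add_right, hee, hff, bil_comm hL.symm f e]
      linarith
    refine ⟨e + f, fun D hD hDe => hD.add _ (hDe e he hee) _ (hDe f hf hff), h1, ?_⟩
    have h2 := (b8 e he.2.2 f hf.2.2).2
    refine lt_of_le_of_ne h2 fun h3 => ?_
    have h4 : e + f ≠ 0 := by
      intro h0
      rw [h0, bil_zero_left] at h1
      exact lt_irrefl _ h1
    have h5 := hL.neg _ h3.symm h4
    linarith
  have key := mods.rig mods.bas d B h hL hd (IsoZ B h) (finIdx_full hL) hex (Dmin B h) hcl hadd hsm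
    hpt hinv hne
  intro x hx
  rw [← key] at hx
  exact hx D hD hDe

end Pool.Agent.L0h95.PZ
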